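import Mathlib

namespace Pool.Agent.Results.MP_4e4764_co.Yes

variable {V : Type}

/-- `c` and `c'` are compatible on `H`: the ends of every edge of `H` get different colours,
whichever of the two colourings is read at each end. -/
def Compatible {α : Type} (H : SimpleGraph V) (c c' : V → α) : Prop :=
  ∀ x y, H.Adj x y → c x ≠ c y ∧ c x ≠ c' y ∧ c' x ≠ c y ∧ c' x ≠ c' y

/-- Between consecutive snapshots at most one edge is added and at most one edge is removed. -/
def GrowPaceOne {T : ℕ} (G : Fin T → SimpleGraph V) : Prop :=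
  ∀ (j : ℕ) (h : j + 1 < T),
    ((G ⟨j + 1, h⟩).edgeSet \ (G ⟨j, by omega⟩).edgeSet).ncard ≤ 1 ∧
    ((G ⟨j, by omega⟩).edgeSet \ (G ⟨j + 1, h⟩).edgeSet).ncard ≤ 1

/-- A temporal `k`-colouring. -/
def IsTemporalColouring {T : ℕ} (G : Fin T → SimpleGraph V) (k : ℕ) (c : Fin T → V → Fin k) :
    Prop :=
  (∀ j x y, (G j).Adj x y → c j x ≠ c j y) ∧
  ∀ (j : ℕ) (h : j + 1 < T),
    Compatible (G ⟨j, by omega⟩ ⊔ G ⟨j + 1, h⟩) (c ⟨j, by omega⟩) (c ⟨j + 1, h⟩)

def Pr (H : SimpleGraph V) (t : V → Bool) : Prop := ∀ x y, H.Adj x y → t x ≠ t y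

def One (A B : SimpleGraph V) : Prop :=
  ∀ x y x' y', A.Adj x y → ¬ B.Adj x y → A.Adj x' y' → ¬ B.Adj x' y' → s(x, y) = s(x', y')

def pr (t q : V → Bool) : V → Bool × Bool := fun v => (t v, q v)

def Feas (G : ℕ → SimpleGraph V) (r : ℕ) (c : V → Bool × Bool) : Prop :=
  ∃ cs : ℕ → V → Bool × Bool, cs r = c ∧ ∀ j < r, Compatible (G j ⊔ G (j + 1)) (cs j) (cs (j + 1))

theorem Feas.step {G : ℕ → SimpleGraph V} {r : ℕ} {c c' : V → Bool × Bool} (h : Feas G r c)
    (hc : Compatible (G r ⊔ G (r + 1)) c c') : Feas G (r + 1) c' := by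
  obtain ⟨cs, h1, h2⟩ := h
  refine ⟨fun j => if j ≤ r then cs j else c', by simp, fun j hj => ?_⟩
  by_cases e : j = r
  · subst e
    simp only [le_refl, if_true, Nat.add_one_le_iff, lt_irrefl, if_false, h1]
    exact hc
  · simp only [if_pos (show j ≤ r by omega), if_pos (show j + 1 ≤ r by omega)]
    exact h2 j (by omega)

theorem Feas.swap {G : ℕ → SimpleGraph V} {r : ℕ} {t q : V → Bool} (h : Feas G r (pr t q)) :
    Feas G r (pr q t) := by
  obtain ⟨cs, h1, h2⟩ := h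
  refine ⟨fun j v => (cs j v).swap, by simp only [h1]; rfl, fun j hj x y hxy => ?_⟩
  obtain ⟨a, b, c, d⟩ := h2 j hj x y hxy
  exact ⟨fun e => a (Prod.swap_injective e), fun e => b (Prod.swap_injective e),
    fun e => c (Prod.swap_injective e), fun e => d (Prod.swap_injective e)⟩

theorem free {H : SimpleGraph V} {t : V → Bool} (h : Pr H t) (q p : V → Bool) :
    Compatible H (pr t q) (pr t p) := by
  intro x y hxy
  have := h x y hxy
  simp only [pr, ne_eq, Prod.mk.injEq]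
  tauto

theorem stepc {H : SimpleGraph V} {t q p : V → Bool} {x y : V}
    (h : ∀ a b, H.Adj a b → t a ≠ t b ∨ s(a, b) = s(x, y)) (hq : q x ≠ q y)
    (hx : p x = q x) (hy : p y = q y) : Compatible H (pr t q) (pr t p) := by
  intro a b hab
  simp only [pr, ne_eq, Prod.mk.injEq]
  rcases h a b hab with h | h
  · tauto
  · rcases Sym2.eq_iff.1 h with ⟨rfl, rfl⟩ | ⟨rfl, rfl⟩
    · rw [hx, hy]; tauto
    · rw [hx, hy]; have := hq.symm; tauto

def Inv (G : ℕ → SimpleGraph V) (r : ℕ) : Prop :=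
  ∃ t, Pr (G r) t ∧ (∃ q, Feas G r (pr t q)) ∧
    ∀ x y, x ≠ y → ∃ q, q x ≠ q y ∧ Feas G r (pr t q)

theorem inv_free {G : ℕ → SimpleGraph V} {r : ℕ} {t : V → Bool} (ht : Pr (G r) t)
    (h : ∀ p, Feas G r (pr t p)) : Inv G r := by
  classical
  exact ⟨t, ht, ⟨t, h t⟩, fun x y hxy => ⟨fun v => decide (v = x), by simp [hxy.symm], h _⟩⟩

theorem inv_pair {G : ℕ → SimpleGraph V} {r : ℕ} {t q : V → Bool} {u v : V} (ht : Pr (G r) t)
    (hq : q u ≠ q v) (h : ∀ p, p u = q u → p v = q v → Feas G r (pr t p)) : Inv G r := by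
  classical
  refine ⟨t, ht, ⟨q, h q rfl rfl⟩, fun x y hxy => ?_⟩
  by_cases h1 : q x ≠ q y
  · exact ⟨q, h1, h q rfl rfl⟩
  push Not at h1
  by_cases h2 : x = u ∨ x = v
  · have h3 : y ≠ u ∧ y ≠ v := by
      constructor <;> rintro rfl <;> rcases h2 with rfl | rfl <;> simp_all
    refine ⟨Function.update q y (!q y), ?_, h _ ?_ ?_⟩
    · rw [Function.update_of_ne hxy, Function.update_self, h1]; simp
    · rw [Function.update_of_ne h3.1.symm]
    · rw [Function.update_of_ne h3.2.symm]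
  · push Not at h2
    refine ⟨Function.update q x (!q x), ?_, h _ ?_ ?_⟩
    · rw [Function.update_of_ne hxy.symm, Function.update_self, h1]; simp
    · rw [Function.update_of_ne h2.1.symm]
    · rw [Function.update_of_ne h2.2.symm]

theorem fix {H : SimpleGraph V} {t q : V → Bool} {x y : V} (ht : Pr H t) (hxy : H.Adj x y)
    (hq : q x ≠ q y) : ∃ t', Pr H t' ∧ t' x = q x ∧ t' y = q y := by
  have h1 := ht x y hxy
  by_cases h : t x = q x
  · refine ⟨t, ht, h, ?_⟩
    revert h1 hq h; cases t x <;> cases t y <;> cases q x <;> cases q y <;> simp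
  · refine ⟨fun v => !t v, fun a b hab => by simpa using ht a b hab, ?_, ?_⟩ <;>
    · beta_reduce
      revert h1 hq h; cases t x <;> cases t y <;> cases q x <;> cases q y <;> simp

theorem advance (G : ℕ → SimpleGraph V) (hb : ∀ j, ∃ t, Pr (G j) t)
    (ha : ∀ j, One (G (j + 1)) (G j)) (hr : ∀ j, One (G j) (G (j + 1))) (r : ℕ) (h : Inv G r) :
    Inv G (r + 1) ∨ Inv G (r + 2) := by
  obtain ⟨t, ht, ⟨q0, hq0⟩, hq⟩ := h
  by_cases h0 : Pr (G (r + 1)) t
  · left
    refine inv_free h0 (fun p => hq0.step (free ?_ _ _))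
    rintro a b (h | h)
    exacts [ht a b h, h0 a b h]
  right
  unfold Pr at h0
  push Not at h0
  obtain ⟨x, y, hxy, hbad⟩ := h0
  have hn : ¬ (G r).Adj x y := fun h => ht x y h hbad
  have e1 : ∀ a b, (G (r + 1)).Adj a b → t a ≠ t b ∨ s(a, b) = s(x, y) := by
    intro a b hab
    by_cases h : (G r).Adj a b
    · exact Or.inl (ht a b h)
    · exact Or.inr (ha r a b x y hab h hxy hn)
  obtain ⟨q, hqxy, hf⟩ := hq x y hxy.ne
  have A : ∀ p, p x = q x → p y = q y → Feas G (r + 1) (pr t p) := by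
    intro p hx hy
    refine hf.step (stepc ?_ hqxy hx hy)
    rintro a b (h | h)
    exacts [Or.inl (ht a b h), e1 a b h]
  have B : ∀ t', Pr (G (r + 1) ⊔ G (r + 2)) t' → Inv G (r + 2) := by
    intro t' ht'
    obtain ⟨t'', h1, h2, h3⟩ := fix ht' (Or.inl hxy) hqxy
    exact inv_free (fun a b hab => h1 a b (Or.inr hab))
      (fun p => (A t'' h2 h3).swap.step (free h1 _ _))
  by_cases h2 : (G (r + 2)).Adj x y
  · obtain ⟨t2, ht2⟩ := hb (r + 2)
    obtain ⟨t', h1, h3, h4⟩ := fix ht2 h2 hqxy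
    by_cases h5 : Pr (G (r + 1)) t'
    · refine B t' ?_
      rintro a b (h | h)
      exacts [h5 a b h, h1 a b h]
    unfold Pr at h5
    push Not at h5
    obtain ⟨u, v, huv, hbad'⟩ := h5
    have hn' : ¬ (G (r + 2)).Adj u v := fun h => h1 u v h hbad'
    have htuv : t u ≠ t v := by
      rcases e1 u v huv with h | h
      · exact h
      · exfalso
        rcases Sym2.eq_iff.1 h with ⟨rfl, rfl⟩ | ⟨rfl, rfl⟩
        exacts [hn' h2, hn' h2.symm]
    refine inv_pair (q := t) h1 htuv (fun p hu hv => (A t' h3 h4).swap.step (stepc ?_ htuv hu hv))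
    rintro a b (h | h)
    · by_cases h' : (G (r + 2)).Adj a b
      · exact Or.inl (h1 a b h')
      · exact Or.inr (hr (r + 1) a b u v h h' huv hn')
    · exact Or.inl (h1 a b h)
  by_cases h3 : Pr (G (r + 2)) t
  · refine inv_pair (q := q) h3 hqxy (fun p hu hv => (A q rfl rfl).step (stepc ?_ hqxy hu hv))
    rintro a b (h | h)
    exacts [e1 a b h, Or.inl (h3 a b h)]
  unfold Pr at h3
  push Not at h3
  obtain ⟨x', y', hxy', hbad'⟩ := h3
  have hn' : ¬ (G (r + 1)).Adj x' y' := by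
    intro h
    rcases e1 x' y' h with h' | h'
    · exact h' hbad'
    · rcases Sym2.eq_iff.1 h' with ⟨rfl, rfl⟩ | ⟨rfl, rfl⟩
      exacts [h2 hxy', h2 hxy'.symm]
  obtain ⟨t1, ht1⟩ := hb (r + 1)
  obtain ⟨t2, ht2⟩ := hb (r + 2)
  have cls : ∀ a b, (G (r + 1) ⊔ G (r + 2)).Adj a b → s(a, b) = s(x, y) ∨ s(a, b) = s(x', y') ∨
      (t a ≠ t b ∧ t1 a ≠ t1 b ∧ t2 a ≠ t2 b) := by
    intro a b hab
    by_cases g1 : (G (r + 1)).Adj a b
    · by_cases g2 : (G (r + 2)).Adj a b
      · rcases e1 a b g1 with h | h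
        · exact Or.inr (Or.inr ⟨h, ht1 a b g1, ht2 a b g2⟩)
        · exact Or.inl h
      · exact Or.inl (hr (r + 1) a b x y g1 g2 hxy h2)
    · have g2 : (G (r + 2)).Adj a b := by
        rcases hab with h | h
        exacts [absurd h g1, h]
      exact Or.inr (Or.inl (ha (r + 1) a b x' y' g2 g1 hxy' hn'))
  have C : ∀ t' : V → Bool, t' x ≠ t' y → t' x' ≠ t' y' →
      (∀ a b, t a ≠ t b → t1 a ≠ t1 b → t2 a ≠ t2 b → t' a ≠ t' b) → Inv G (r + 2) := by
    intro t' c1 c2 c3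
    refine B t' (fun a b hab => ?_)
    rcases cls a b hab with h | h | ⟨h, h', h''⟩
    · rcases Sym2.eq_iff.1 h with ⟨rfl, rfl⟩ | ⟨rfl, rfl⟩
      exacts [c1, c1.symm]
    · rcases Sym2.eq_iff.1 h with ⟨rfl, rfl⟩ | ⟨rfl, rfl⟩
      exacts [c2, c2.symm]
    · exact c3 a b h h' h''
  have k1 := ht1 x y hxy
  have k2 := ht2 x' y' hxy'
  by_cases c1 : t1 x' ≠ t1 y'
  · exact C t1 k1 c1 (fun _ _ _ h _ => h)
  by_cases c2 : t2 x ≠ t2 y
  · exact C t2 c2 k2 (fun _ _ _ _ h => h)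
  push Not at c1 c2
  refine C (fun v => xor (t v) (xor (t1 v) (t2 v))) ?_ ?_ ?_
  · simp only [hbad, c2]
    revert k1; cases t y <;> cases t2 y <;> cases t1 x <;> cases t1 y <;> simp
  · simp only [hbad', c1]
    revert k2; cases t y' <;> cases t1 y' <;> cases t2 x' <;> cases t2 y' <;> simp
  · intro a b
    cases t a <;> cases t b <;> cases t1 a <;> cases t1 b <;> cases t2 a <;> cases t2 b <;> simp

theorem reach (G : ℕ → SimpleGraph V) (hb : ∀ j, ∃ t, Pr (G j) t)
    (ha : ∀ j, One (G (j + 1)) (G j)) (hr : ∀ j, One (G j) (G (j + 1))) (N : ℕ) :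
    ∃ r, N ≤ r ∧ Inv G r := by
  induction N with
  | zero =>
    obtain ⟨t, ht⟩ := hb 0
    exact ⟨0, le_rfl, inv_free ht (fun p => ⟨fun _ => pr t p, rfl, fun j hj => absurd hj (by omega)⟩)⟩
  | succ N ih =>
    obtain ⟨r, h1, h2⟩ := ih
    rcases advance G hb ha hr r h2 with h | h
    exacts [⟨r + 1, by omega, h⟩, ⟨r + 2, by omega, h⟩]

theorem one_of [Finite V] {A B : SimpleGraph V} (h : (A.edgeSet \ B.edgeSet).ncard ≤ 1) :
    One A B := by
  intro x y x' y' a b c d
  exact (Set.ncard_le_one (Set.toFinite _)).1 h _ ⟨a, b⟩ _ ⟨c, d⟩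

theorem result (V : Type) [Finite V] (T : ℕ) (G : Fin T → SimpleGraph V)
    (hpace : GrowPaceOne G) (hbip : ∀ j, (G j).IsBipartite) :
    ∃ c : Fin T → V → Fin 4, IsTemporalColouring G 4 c := by
  rcases Nat.eq_zero_or_pos T with rfl | hT
  · exact ⟨fun j => j.elim0, fun j => j.elim0, fun j h => absurd h (by omega)⟩
  obtain ⟨G', hG'⟩ : ∃ G' : ℕ → SimpleGraph V,
      G' = fun j => G ⟨min j (T - 1), by omega⟩ := ⟨_, rfl⟩
  have hlt : ∀ j (h : j < T), G' j = G ⟨j, h⟩ := by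
    intro j h
    rw [hG']
    simp only [min_eq_left (show j ≤ T - 1 by omega)]
  have hge : ∀ j, ¬ j + 1 < T → G' (j + 1) = G' j := by
    intro j h
    rw [hG']
    simp only [min_eq_right (show T - 1 ≤ j by omega), min_eq_right (show T - 1 ≤ j + 1 by omega)]
  obtain ⟨r, h1, t, -, ⟨q, cs, -, hcs⟩, -⟩ := reach G' (fun j => by
      obtain ⟨C⟩ := hbip ⟨min j (T - 1), by omega⟩
      refine ⟨fun v => decide (C v = 0), fun x y hxy => ?_⟩
      rw [hG'] at hxy
      have := C.valid hxy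
      revert this
      beta_reduce
      generalize C x = a
      generalize C y = b
      revert a b
      decide)
    (fun j => by
      by_cases h : j + 1 < T
      · rw [hlt _ h, hlt j (by omega)]; exact one_of (hpace j h).1
      · rw [hge j h]; intro x y _ _ a b; exact absurd a b)
    (fun j => by
      by_cases h : j + 1 < T
      · rw [hlt _ h, hlt j (by omega)]; exact one_of (hpace j h).2
      · rw [hge j h]; intro x y _ _ a b; exact absurd a b) T
  obtain ⟨e⟩ : Nonempty ((Bool × Bool) ≃ Fin 4) := ⟨Fintype.equivFinOfCardEq (by simp)⟩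
  refine ⟨fun j v => e (cs j.val v), fun j x y hxy h => ?_, fun j h x y hxy => ?_⟩
  · exact (hcs j.val (by omega) x y (Or.inl (by rw [hlt j.val j.2]; exact hxy))).1 (e.injective h)
  · obtain ⟨a, b, c, d⟩ := hcs j (by omega) x y (by rw [hlt _ h, hlt j (by omega)]; exact hxy)
    exact ⟨fun h => a (e.injective h), fun h => b (e.injective h), fun h => c (e.injective h),
      fun h => d (e.injective h)⟩

end Pool.Agent.Results.MP_4e4764_co.Yes
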